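import Pool.Agent.T2h61.DO.Fin
import Pool.Agent.T2h61.DO.T_EXI

/-!
# Linear groups of degree two over rings of differential operators

`C` is any class of groups with the closure properties `ClosedE C`: it contains the infinite cyclic
group, it is closed under subgroups, finite products, free products, overgroups of finite index and
colimits of directed systems, and it contains `G` if there is a surjection from `G` to a group `Q` in
`C` such that the preimages of all virtually cyclic subgroups of `Q` are in `C`. It contains the metabelian
groups, and it satisfies `AcylF C`: a finitely generated group that acts on a tree without inversions,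
such that for some `k` and `n` the pointwise stabilizers of the paths of length at least `k` have at most
`n` elements, is in `C` if the vertex stabilizers are in `C`. All this is known for the class of the groups
whose wreath products with finite groups satisfy the K- and L-theoretic Farrell–Jones conjecture with
coefficients (`AcylF` is a theorem of Knopf); this class also contains the groups `GL_n(k)` for fields `k`
algebraic over `ℚ` or over `𝔽_p(t)` (Rüping).

Let `K` be a field of characteristic zero with a derivation `δ`, and `R = K[x; δ]` the ring of the
polynomials `∑ a_i x^i` with the multiplication given by `x a = a x + δ a` (`IsDO`; it exists by the first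
part of the theorem). For a subring `A` of `K` with `δ A ⊆ A` let `A[x; δ]` be the subring of `R` generated
by `A` and `x` (`AX`). For example `k[t][x; d/dt]` is the first Weyl algebra `A_1(k)`, and
`k[t][x; t d/dt]` is the enveloping algebra of the non-abelian Lie algebra of dimension two; if `A` is the
ring of functions on an elliptic curve without one point and `δ` the invariant derivation then `A[x; δ]`
is the ring of differential operators on this affine curve.

* (1) If `GL_2(K)` is in `C` then `GL_2(K[x; δ])` is in `C`.
* (2) If `K = k(t_1, …, t_m)`, `A = k[t_1, …, t_m]` and `GL_2(k)` is in `C` then `GL_2(A[x; δ])` is in `C`.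
* (3) Let `A` be an integrally closed, finitely generated algebra over `k` with the field of fractions `K`,
  with one place `v` (`OnePlace`: `v` is a discrete valuation of `K`, trivial on `k`, such that the elements
  of `A` of bounded value form finite-dimensional spaces), and let all `GL_n(k)` be in `C`. Then
  `GL_2(A[x; δ])` is in `C`.

Outline of the proof. `GL_2(R)` is generated by `GL_2(K)` and the group `B` of the upper triangular
matrices, and their cosets are the vertices of a tree: heights are defined by the degrees of the
entries, and a vertex has at most one lower neighbour since the leading vectors of the columns of an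
invertible matrix of positive degree are linearly dependent. An operator of positive degree commutes only
with the constants of `K`; it follows that only central scalar matrices fix a path of length seven. So a
group with finitely many central scalar matrices acts acylindrically. There is a homomorphism `Δ` from
`GL_2(R)` to the units of `K`, the leading coefficient of the determinant of Dieudonné; it is given by an
explicit formula (`dl`), and `Δ = z²` at the scalar matrix `z`. So the preimages of the virtually cyclic
groups of units of `K` contain finitely many central scalars, or have a subgroup of finite index which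
is the product of the kernel of `Δ` and an infinite cyclic group of scalars. The vertex groups in
`GL_2(A[x; δ])` are solvable or conjugate to groups of matrices over `K` with bounded denominators, the
determinants of which are units of `A`; these are in `C` by the results in
`PolynomialAutomorphismGroups` and `IrreducibleBoundary`.

Contributors to the Lean code of the project DO: helpers 12, 25, 33, 35, 45, 47, 55, 56, 57, 60, 67, 68, 69,
76, 84, 86, 96 and 61.
-/

set_option autoImplicit false

namespace Pool.Agent.Results.MP_8a3537_gt.DifferentialOperatorRings

open WithZero Matrix
open Pool.Agent.Y110.FJ (ClosedE)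
open Pool.Agent.N509.TX (AcylF)
open Pool.Agent.T2h61
open Pool.Agent.T2h61.PV (OnePlace)
open Pool.Agent.T2h61.DO (IsDO AX)

/-- the derivation `δ` of `K` maps the subring `A` into itself -/
def Preserves (A : Type) {K : Type} [CommRing A] [Field K] [Algebra A K] (δ : Derivation ℤ K K) : Prop :=
  ∀ a : A, ∃ b : A, δ (algebraMap A K a) = algebraMap A K b

/-- the invertible `2 × 2` matrices over the ring `R` -/
abbrev GL2 (R : Type) [Ring R] : Type := (Matrix (Fin 2) (Fin 2) R)ˣ

theorem result (C : ∀ (G : Type) [Group G], Prop) (hC : ClosedE C)
    (hM : ∀ (G : Type) [Group G], derivedSeries G 2 = ⊥ → C G) (hA : AcylF C) :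
    (∀ (K : Type) [Field K] (δ : Derivation ℤ K K),
      ∃ (R : Type) (_ : Ring R) (ι : K →+* R) (x : R), IsDO K R ι x δ) ∧
    (∀ (K R : Type) [Field K] [CharZero K] [Ring R] (ι : K →+* R) (x : R) (δ : Derivation ℤ K K),
      IsDO K R ι x δ → C (GL2 K) → C (GL2 R)) ∧
    (∀ (k K R : Type) [Field k] [CharZero k] [Field K] [Ring R] (m : ℕ)
      [Algebra (MvPolynomial (Fin m) k) K] [IsFractionRing (MvPolynomial (Fin m) k) K]
      (ι : K →+* R) (x : R) (δ : Derivation ℤ K K), IsDO K R ι x δ →
      Preserves (MvPolynomial (Fin m) k) δ → C (GL2 k) →
        C (GL2 (AX (MvPolynomial (Fin m) k) ι x))) ∧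
    (∀ (k A K R : Type) [Field k] [CharZero k] [CommRing A] [IsDomain A] [IsIntegrallyClosed A]
      [Algebra k A] [Algebra.FiniteType k A] [Field K] [Algebra A K] [IsFractionRing A K] [Ring R]
      (v : Valuation K ℤᵐ⁰) (ι : K →+* R) (x : R) (δ : Derivation ℤ K K), OnePlace k A K v →
      IsDO K R ι x δ → Preserves A δ → (∀ n, C (GL (Fin n) k)) → C (GL2 (AX A ι x))) :=
  ⟨DO.EXI.t_EXI,
    fun _ _ _ _ _ _ _ _ hR h2 => DO.field DO.brd hC hM hA hR h2,
    fun k K _ _ _ _ _ m _ _ _ _ δ hR hδ h2 => DO.poly hC hM hA k h2 m K δ hδ hR,
    fun k A K _ _ _ _ _ _ _ _ _ _ _ _ v _ _ δ hv hR hδ hk => DO.place hC hM hA k A K hk v hv δ hδ hR⟩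

end Pool.Agent.Results.MP_8a3537_gt.DifferentialOperatorRings
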