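import Pool.Agent.T2h61.PV.Fin
import Pool.Agent.T2h61.PV.T_RFO
import Pool.Agent.T2h61.PV.T_ORU
import Pool.Agent.T2h61.PV.T_UNV
import Pool.Agent.T2h61.PV.T_BDV
import Pool.Agent.T2h61.PV.T_VTB

/-!
# Linear groups of degree two and groups of automorphisms over affine varieties with irreducible boundary

`C` is any class of groups with the closure properties `ClosedE C`: it contains the infinite cyclic
group, it is closed under subgroups, finite products, free products, overgroups of finite index and
colimits of directed systems, and it contains `G` if there is a surjection from `G` to a group `Q` in `C`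
such that the preimages of all virtually cyclic subgroups of `Q` are in `C`. `AcylF C` says that a finitely
generated group that acts on a tree without inversions, such that for some `k` and `n` the pointwise
stabilizers of the paths of length at least `k` have at most `n` elements, is in `C` if the vertex
stabilizers are in `C`. All this is known for the class of the groups whose wreath products with finite
groups satisfy the K- and L-theoretic Farrell–Jones conjecture with coefficients (`AcylF` is a theorem of
Knopf); this class also contains the solvable groups (Wegner) and the groups `GL_n(k)` for fields `k`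
algebraic over `ℚ` or over `𝔽_p(t)` (Rüping). Let `k` be a field such that all `GL_n(k)` are in `C`.

`OnePlace k A K v`: `A` is an algebra over `k` with the field of fractions `K`, `v` is a discrete valuation
of `K`, trivial on `k`, and for each `n` the elements of `A` of value at most `exp n` lie in a
finite-dimensional subspace. Example: the ring `A` of the regular functions on an affine variety which is
the complement of an irreducible divisor `D` in a normal projective variety, `v` the order of the pole
along `D`; so affine curves with one place at infinity, complements of irreducible hypersurfaces in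
projective spaces, affine quadrics.

* (1) Let `L` be a residually finite-dimensional associative `k`-algebra, `ρ : L → M_2(K)` a ring
  homomorphism, `v` a discrete valuation of the field `K`, and `H` a group of units of `L` such that
  `v (det ρ(h)) = 1` for `h ∈ H` and for each `n` the `h ∈ H` such that the values of the entries of
  `ρ(h)` are at most `exp n` lie in a finite-dimensional subspace of `L`. Then `H` is in `C`. (For instance
  orders in quaternion algebras over `K`.)
* (2) Let `A` be a finitely generated commutative domain over `k` with `OnePlace k A K v`. Then `GL_2(A)`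
  is in `C`, and so is every subgroup of `GL_2(K)` with bounded denominators, the determinants of which
  are units of `A`.
* (3) If moreover `k` has characteristic zero, `C` contains the metabelian groups and `AcylF C` holds, then
  the group of all automorphisms of the `A`-algebra `A[x, y]` is in `C`.

Outline of the proof. (1) `H` acts on the tree of `GL_2(K)`, the stabilizers are bounded and hence
contained in finite-dimensional subspaces, which are detected by finite-dimensional representations of
`L`; now use the theorem on groups acting on trees with one homomorphism for each edge. (2) The span over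
`A` of a group with bounded denominators is an order `L`, residually finite-dimensional by Krull's
theorem and the Nullstellensatz; the units of `A` have the value one, since the powers of a unit of value
at most one lie in a finite-dimensional space. (3) By the theorem of Jung `Aut K[x, y]` acts on a tree, the
action of each finitely generated group is acylindrical, and the affine elements `a` such that `g a g⁻¹`
is an automorphism over `A` have linear parts with bounded denominators.
-/

set_option autoImplicit false

namespace Pool.Agent.Results.MP_8a3537_gt.IrreducibleBoundary

open WithZero Matrix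
open Pool.Agent.Y110.FJ (ClosedE)
open Pool.Agent.N509.TX (AcylF)
open Pool.Agent.T2h61
open Pool.Agent.T2h61.PV

theorem result (C : ∀ (G : Type) [Group G], Prop) (hC : ClosedE C) (k : Type) [Field k]
    (hk : ∀ n, C (GL (Fin n) k)) :
    (∀ (L : Type) [Ring L] [Algebra k L],
      (∀ a : L, a ≠ 0 → ∃ (m : ℕ) (φ : L →ₐ[k] Matrix (Fin m) (Fin m) k), φ a ≠ 0) →
      ∀ (K : Type) [Field K] (v : Valuation K ℤᵐ⁰), (∃ π : K, v π = exp (-1 : ℤ)) →
      ∀ (ρ : L →+* Matrix (Fin 2) (Fin 2) K) (H : Subgroup Lˣ),
      (∀ h ∈ H, v (ρ (h : L)).det = 1) →
      (∀ n : ℤ, ∃ W : Submodule k L, FiniteDimensional k W ∧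
        ∀ h ∈ H, (∀ i j, v (ρ (h : L) i j) ≤ exp n) → (h : L) ∈ W) → C H) ∧
    (∀ (A K : Type) [CommRing A] [IsDomain A] [Algebra k A] [Algebra.FiniteType k A]
      [Field K] [Algebra A K] [IsFractionRing A K] (v : Valuation K ℤᵐ⁰), OnePlace k A K v →
      C (GL (Fin 2) A) ∧
      (∀ (H : Subgroup (GL (Fin 2) K)) (s : A), s ≠ 0 →
        (∀ h ∈ H, ∀ i j, ∃ r : A,
          algebraMap A K s * (h : Matrix (Fin 2) (Fin 2) K) i j = algebraMap A K r) →
        (∀ h ∈ H, ∃ u : Aˣ, (h : Matrix (Fin 2) (Fin 2) K).det = algebraMap A K u) → C H) ∧
      ((∀ (G : Type) [Group G], derivedSeries G 2 = ⊥ → C G) → AcylF C → CharZero k →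
        C (MvPolynomial (Fin 2) A ≃ₐ[A] MvPolynomial (Fin 2) A))) := by
  refine ⟨fun L _ _ hL K _ v hπ ρ H h1 h2 =>
    ORU.t_ORU C hC k L (RF.RFC.t_RFC k L hL) hk K v hπ ρ H h1 h2, fun A K _ _ _ _ _ _ _ v hv =>
    ⟨gl RFO.t_RFO ORU.t_ORU UNV.t_UNV BDV.t_BDV hC k A K hk v hv, fun H s hs h1 h2 =>
      BDV.t_BDV RFO.t_RFO ORU.t_ORU UNV.t_UNV C hC k A K hk v hv H s hs h1 h2, fun hM hA hch =>
      aut RFO.t_RFO ORU.t_ORU UNV.t_UNV BDV.t_BDV VTB.t_VTB hC hM hA k A K hk v hv⟩⟩

end Pool.Agent.Results.MP_8a3537_gt.IrreducibleBoundary
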