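import Pool.Agent.T2h61.PN.Fin
import Pool.Agent.T2h61.PN.T_EMB
import Pool.Agent.T2h61.PN.T_DEN
import Pool.Agent.T2h61.PN.T_STEP
import Pool.Agent.T2h61.FL.Fin
import Pool.Agent.T2h61.FL.T_SVX
import Pool.Agent.T2h61.FL.T_FLK
import Pool.Agent.T2h61.FL.T_FLR
import Pool.Agent.T2h61.RF.T_ORG
import Pool.Agent.T2h61.RF.T_ORD
import Pool.Agent.T2h61.RF.T_JET

/-!
# Groups of polynomial automorphisms

`C` is any class of groups with the closure properties `ClosedE C` which contains the metabelian groups:
`C` contains the infinite cyclic group, it is closed under subgroups, finite products, free products,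
overgroups of finite index and colimits of directed systems, and it contains `G` if there is a surjection
from `G` to a group `Q` in `C` such that the preimages of all virtually cyclic subgroups of `Q` are in
`C`. `AcylF C` says that a finitely generated group that acts on a tree without inversions, such that for
some `k` and `n` the pointwise stabilizers of the paths of length at least `k` have at most `n` elements,
is in `C` if the vertex stabilizers are in `C`. All this is known for the class of the groups whose wreath
products with finite groups satisfy the K- and L-theoretic Farrell–Jones conjecture with coefficients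
(`AcylF` is a theorem of Knopf); this class also contains the groups `GL_n(k)` for fields `k` algebraic
over `ℚ` or over `𝔽_p(t)` (Rüping).

* (1) Let `AcylF C` hold. For every field `k` of characteristic zero the group of all automorphisms of
  the `k`-algebra `k[x, y]` is in `C` if and only if `GL_2(k)` is in `C`.
* (2) Let `AcylF C` hold and let `GL_2(k)` be in `C`, `k` a field of characteristic zero. Let `R` be the
  polynomial ring in `m` variables over `k`. Every group of automorphisms of the `R`-algebra
  `R[x_0, …, x_(n+1)]` which map each of the subalgebras `R[x_i, …, x_(n+1)]`, `i ≤ n`, into itself is in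
  `C`. For `n = 0` these are all groups of automorphisms of `R[x, y]` over `R`; for `m = 1`, `n = 0` the
  groups of automorphisms of `k[t, x, y]` which fix `t` (the automorphism of Nagata is an example).
* (3) For every field `k` (of any characteristic) such that all `GL_n(k)` are in `C` the group of the
  tame automorphisms of `k[x, y]` which fix the origin is in `C`.

Outline of the proof. By the theorem of Jung, proved here in characteristic zero (`PL.T_JFN`), the
automorphisms of `K[x, y]` are products of affine and triangular ones; the cosets of these two subgroups
are the vertices of a tree on which the group acts (`PL.GT`). In characteristic zero the stabilizer of a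
path of length seven embeds in the group of the roots of unity of `K` (`PL.FIX7`), and a finitely generated
field of characteristic zero has finitely many roots of unity (`PL.MUF`). So the action of a finitely
generated group of automorphisms is acylindrical, and one has to consider the groups of affine
automorphisms `a` of `K[x, y]` such that `g a g⁻¹` is an automorphism over `R` (`K` the field of fractions
of `R`). Their linear parts form a group of matrices with bounded denominators and constant determinants,
which is in `C`: for one variable more it acts on the tree of `GL_2(K)` for the degree valuation, and the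
bounded subsets are detected by the values at finitely many points. The passage to more variables in (2)
is by extensions with solvable kernels. In (3) the stabilizers of the edges are detected by the
action on the jets at the origin.
-/

set_option autoImplicit false

namespace Pool.Agent.Results.MP_8a3537_gt.PolynomialAutomorphismGroups

open MvPolynomial Matrix
open Pool.Agent.Y110.FJ (ClosedE)
open Pool.Agent.N509.TX (AcylF)
open Pool.Agent.T2h61

/-- the group of the automorphisms of the `R`-algebra `R[x_0, …, x_(n-1)]` -/
abbrev AutPol (n : ℕ) (R : Type) [CommRing R] : Type :=
  MvPolynomial (Fin n) R ≃ₐ[R] MvPolynomial (Fin n) R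

/-- all elements of `H` map each of the subalgebras `R[x_i, …, x_(n+1)]`, `i ≤ n`, into itself -/
def PreservesFlag (R : Type) [CommRing R] (n : ℕ) (H : Subgroup (AutPol (n + 2) R)) : Prop :=
  ∀ h ∈ H, ∀ i : ℕ, i ≤ n → ∀ j : Fin (n + 2), i ≤ (j : ℕ) →
    h (X j) ∈ Algebra.adjoin R (X '' {l : Fin (n + 2) | i ≤ (l : ℕ)})

theorem result (C : ∀ (G : Type) [Group G], Prop) (hC : ClosedE C)
    (hM : ∀ (G : Type) [Group G], derivedSeries G 2 = ⊥ → C G) :
    (AcylF C → ∀ (k : Type) [Field k] [CharZero k],
      (C (AutPol 2 k) ↔ C (GL (Fin 2) k)) ∧
      (C (GL (Fin 2) k) → ∀ (m n : ℕ) (H : Subgroup (AutPol (n + 2) (MvPolynomial (Fin m) k))),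
        PreservesFlag (MvPolynomial (Fin m) k) n H → C H)) ∧
    (∀ (k : Type) [Field k], (∀ n, C (GL (Fin n) k)) → C (RF.tameO k)) := by
  refine ⟨fun hA k _ _ => ⟨⟨fun h => PN.gl_of_aut hC k h, fun h => PN.aut_field hC hM hA k h⟩,
    fun h2 m n H hH => ?_⟩, fun k _ hk => ?_⟩
  · exact FL.flag FL.SVX.t_SVX FL.FLK.t_FLK FL.FLR.t_FLR hC hM _
      (PN.aut_poly hC hM hA PN.EMB.t_EMB PN.STEP.t_STEP PN.DEN.t_DEN k h2 m) n H hH
  · exact RF.ORG.t_ORG PL.t_GRP PL.t_VA PL.t_VJ PL.t_GT PL.TREE.t_TREE PL.CON.t_CON PL.DEG.t_DEG
      RF.ORD.t_ORD RF.JET.t_JET C hC hM k hk

end Pool.Agent.Results.MP_8a3537_gt.PolynomialAutomorphismGroups
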