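import Pool.Agent.T2h60.LA.DCol
import Pool.Agent.R615.KU.Gp
import Pool.Agent.R615.KU.Fk
import Pool.Agent.R615.KU.Wr2
import Pool.Agent.R615.KU.PTk
import Pool.Agent.R942.NV.VF

/-!
# Groups with injective rational assembly maps in L-theory, for all coefficient rings

`A` is any ring with involution, `lA A ε` is the functor `G ↦ L₀(A[G]; ε) ⊗ ℚ` (nonsingular
`ε`-quadratic forms on finitely generated projective modules over the group ring, modulo hyperbolic
forms), and `hq j` is the functor `G ↦ H_j(G; ℚ)`. The class `𝒩_A` is the class of the groups `G` with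
`DetL A ε G`: for every group `T` and every family of transformations
`α_{j,i} : H_j(G; ℚ) → L₀(A[G × T]; ε) ⊗ ℚ`, `i ∈ I_j`, natural in the group `G`, such that the
`α_{j,i}`, `i ∈ I_j`, are linearly independent on `ℤ^j` for each `j`, the sum of all the `α_{j,i}` is
injective on `G`.

The rational assembly map `⨁_j H_j(G; ℚ) ⊗ L_{n-j}(A) → L_n(A[G]) ⊗ ℚ` is given by such a family
(with `T = 1` for even `n`, and with `T = ℤ` for odd `n`; the `α_{j,i}` belong to the elements of a
basis of `L_{n-j}(A) ⊗ ℚ`), which is linearly independent on `ℤ^j` by the splitting theorem of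
Shaneson. So it is injective for all groups of the class. The theorem gives closure properties of
the class; no hypothesis is made on the ring `A`.

The class contains the groups `P / [S, S]`, for all groups `P` with a free subgroup of finite index
and all normal subgroups `S` of `P`; these are torsion-free if `P` is free. It is closed under direct
products, under directed colimits (with arbitrary structure maps), under overgroups of finite index,
under extensions with finite kernel, under graph products, under restricted wreath products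
`K ≀_V Γ` such that the pointwise stabilizers in `Γ` of the finite subsets of `V` are in the class,
and, more generally, under semidirect products with a system of supports. A group is in the class if
its rational homology is detected by homomorphisms to groups in the class.
-/

set_option autoImplicit false

namespace Pool.Agent.Results.MP_8a3537_gt.RationalInjectivity

open CategoryTheory Monoid Pool.Agent.Y483 Pool.Agent.Y477.IW Pool.Agent.Y75.MQ Pool.Agent.Y483.PW
  Pool.Agent.Y110.KW Pool.Agent.R615.KU Pool.Agent.R615.K1 Pool.Agent.R793.Mag Pool.Agent.R942.NV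
  Pool.Agent.T2h60.LA

/-- If the `α_{j,i} : H_j(-; ℚ) → F`, `i ∈ I_j`, are linearly independent on `ℤ^j` for each `j`, then
the sum of all the `α_{j,i}` is injective on `G`. -/
def InjFam {F : GrpCat.{0} ⥤ ModuleCat.{0} ℚ} {I : ℕ → Type} (α : ∀ j : ℕ, I j → (hq j ⟶ F))
    (G : Type) [Group G] : Prop :=
  (∀ j, LinearIndependent ℚ fun i : I j => ((α j i).app (zn j)).hom) →
    kerFam (fun p : Σ j, I j => α p.1 p.2) (GrpCat.of G) = ⊥

/-- For every group `T` and every family of natural transformations
`α_{j,i} : H_j(-; ℚ) → L₀(A[- × T]; ε) ⊗ ℚ`, `i ∈ I_j`, linearly independent on `ℤ^j` for each `j`,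
the sum of all the `α_{j,i}` is injective on `G`. -/
def DetL (A : Type) [Ring A] [StarRing A] (ε : ℤˣ) (G : Type) [Group G] : Prop :=
  ∀ (T : Type) [Group T] (I : ℕ → Type) (α : ∀ j : ℕ, I j → (hq j ⟶ timesF T ⋙ lA A ε)),
    InjFam α G

theorem result (A : Type) [Ring A] [StarRing A] (ε : ℤˣ) :
    (∀ (P : Type) [Group P] (F : Subgroup P) [F.FiniteIndex] [IsFreeGroup F]
      (S : Subgroup P) [S.Normal], DetL A ε (P ⧸ (⁅S, S⁆ : Subgroup P))) ∧
    (∀ (G K : Type) [Group G] [Group K], DetL A ε G → DetL A ε K → DetL A ε (G × K)) ∧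
    (∀ (G : Type) [Group G] (H : Subgroup G) [H.FiniteIndex], DetL A ε H → DetL A ε G) ∧
    (∀ (G K : Type) [Group G] [Group K] (f : G →* K) [Finite f.ker], Function.Surjective f →
      DetL A ε K → DetL A ε G) ∧
    (∀ (I : Type) [Preorder I] [Nonempty I] (_ : ∀ i j : I, ∃ k, i ≤ k ∧ j ≤ k)
      (G : I → Type) [∀ i, Group (G i)] (f : ∀ i j, i ≤ j → G i →* G j)
      (L : Type) [Group L] (g : ∀ i, G i →* L),
      (∀ i (h : i ≤ i) (x : G i), f i i h x = x) →
      (∀ i j k (h : i ≤ j) (h' : j ≤ k) (x : G i), f j k h' (f i j h x) = f i k (h.trans h') x) →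
      (∀ i j (h : i ≤ j) (x : G i), g j (f i j h x) = g i x) →
      (∀ y : L, ∃ i, ∃ x : G i, g i x = y) →
      (∀ i (x : G i), g i x = 1 → ∃ j, ∃ h : i ≤ j, f i j h x = 1) →
      (∀ i, DetL A ε (G i)) → DetL A ε L) ∧
    (∀ (G : Type) [Group G], (∀ (j : ℕ) (x : (hq j).obj (GrpCat.of G)), x ≠ 0 →
      ∃ (K : Type) (_ : Group K) (f : G →* K), DetL A ε K ∧
        ((hq j).map (GrpCat.ofHom f)).hom x ≠ 0) → DetL A ε G) ∧
    (∀ (V : Type) (P : V → Type) [∀ v, Group (P v)] (Λ : SimpleGraph V),
      (∀ v, DetL A ε (P v)) → DetL A ε (GP P Λ)) ∧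
    (∀ (K V Γ : Type) [Group K] [Group Γ] [MulAction Γ V], DetL A ε K →
      (∀ σ : Finset V, DetL A ε (fixingSubgroup Γ (σ : Set V))) → DetL A ε (FW K V Γ)) ∧
    (∀ (Γ N V : Type) [Group Γ] [Group N] [MulAction Γ V] (s : Sys Γ N V),
      (∀ σ : s.Cl, DetL A ε (s.supG σ.1)) → DetL A ε (N ⋊[s.φ] Γ)) := by
  have hE : HasPT (lA A ε) := hasPT_lA A ε
  refine ⟨?_, ?_, ?_, ?_, ?_, ?_, ?_, ?_, ?_⟩
  · intro P _ F _ _ S _ T _ I α hα
    have hT : HasTransfers (timesF T ⋙ lA A ε) :=
      hasTransfers_times (hasPairTransfers_of_PT hE) T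
    rw [kerFam_eq]
    exact ker_flow S _ _ hT (by rw [mul_one]; exact Subgroup.FiniteIndex.index_ne_zero)
      (flowFin (flowFree F)) (fun n => ker_Zn_of_li α hα n)
  · intro G K _ _ h1 h2
    exact Det.prod (E := lA A ε) h1 h2
  · intro G _ H _ h
    exact Det.virt hE H h
  · intro G K _ _ f _ hf h
    exact Det.of_inj (E := lA A ε) h f fun j x hx => fk_inj f hf j x hx
  · intro I _ _ hd G _ f L _ g h1 h2 h3 h4 h5 h
    exact det_colim (ct_lA A ε) (DS.ofGroups hd h1 h2 h3 h4 h5) h
  · intro G _ h
    exact Det.detect (E := lA A ε) h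
  · intro V P _ Λ h
    exact Det.graph Λ hE h
  · intro K V Γ _ _ _ h1 h2
    exact Det.fw hE h1 h2
  · intro Γ N V _ _ _ s h
    exact Det.sys_sep hE s h

end Pool.Agent.Results.MP_8a3537_gt.RationalInjectivity
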